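import Mathlib

/-!
# Paralindelöf spaces and closed mappings
-/

set_option autoImplicit false

open Set Topology

universe u v

namespace Pool.Agent.U3.PL

/-- Every point has a neighbourhood that meets only countably many members of the family. -/
def LocallyCountable {X : Type u} [TopologicalSpace X] (𝒱 : Set (Set X)) : Prop :=
  ∀ x : X, ∃ N ∈ 𝓝 x, {V | V ∈ 𝒱 ∧ (V ∩ N).Nonempty}.Countable

/-- Every open cover has a locally countable open refinement. -/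
def Paralindelof (X : Type u) [TopologicalSpace X] : Prop :=
  ∀ 𝒰 : Set (Set X), (∀ U ∈ 𝒰, IsOpen U) → ⋃₀ 𝒰 = univ →
    ∃ 𝒱 : Set (Set X), (∀ V ∈ 𝒱, IsOpen V) ∧ ⋃₀ 𝒱 = univ ∧ (∀ V ∈ 𝒱, ∃ U ∈ 𝒰, V ⊆ U) ∧
      LocallyCountable 𝒱

/-- the indexed version -/
def LC {X : Type u} [TopologicalSpace X] {ι : Type v} (A : ι → Set X) : Prop :=
  ∀ x : X, ∃ N ∈ 𝓝 x, {i | (A i ∩ N).Nonempty}.Countable

variable {X : Type u} [TopologicalSpace X]

/-- a locally countable family of arbitrary sets has a locally countable open expansion -/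
lemma expand (hX : Paralindelof X) {ι : Type v} {A : ι → Set X} (hA : LC A) :
    ∃ E : ι → Set X, (∀ i, IsOpen (E i)) ∧ (∀ i, A i ⊆ E i) ∧ LC E := by
  obtain ⟨𝒱, hVo, hVc, hVr, hVl⟩ := hX {O | IsOpen O ∧ {i | (A i ∩ O).Nonempty}.Countable}
    (fun U hU => hU.1) (by
      refine eq_univ_of_forall fun x => ?_
      obtain ⟨N, hN, hc⟩ := hA x
      refine ⟨interior N, ⟨isOpen_interior, ?_⟩, mem_interior_iff_mem_nhds.2 hN⟩
      exact hc.mono fun i hi => hi.mono (inter_subset_inter_right _ interior_subset))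
  refine ⟨fun i => ⋃₀ {V | V ∈ 𝒱 ∧ (A i ∩ V).Nonempty}, fun i => ?_, fun i x hx => ?_,
    fun x => ?_⟩
  · exact isOpen_sUnion fun V hV => hVo V hV.1
  · have : x ∈ ⋃₀ 𝒱 := hVc ▸ mem_univ x
    obtain ⟨V, hV, hxV⟩ := this
    exact ⟨V, ⟨hV, x, hx, hxV⟩, hxV⟩
  · obtain ⟨N, hN, hc⟩ := hVl x
    refine ⟨N, hN, ?_⟩
    have h1 : (⋃ V ∈ {V | V ∈ 𝒱 ∧ (V ∩ N).Nonempty}, {i | (A i ∩ V).Nonempty}).Countable := by
      refine hc.biUnion fun V hV => ?_
      obtain ⟨U, hU, hVU⟩ := hVr V hV.1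
      exact hU.2.mono fun i hi => hi.mono (inter_subset_inter_right _ hVU)
    refine h1.mono ?_
    rintro i ⟨y, ⟨V, ⟨hV, hAV⟩, hyV⟩, hyN⟩
    simp only [mem_iUnion]
    exact ⟨V, ⟨hV, y, hyV, hyN⟩, hAV⟩

/-- the union of a Lindelöf set of neighbourhoods meets countably many members -/
lemma LC.nhd {ι : Type v} {A : ι → Set X} (hA : LC A) {K : Set X} (hK : IsLindelof K) :
    ∃ N : Set X, IsOpen N ∧ K ⊆ N ∧ {i | (A i ∩ N).Nonempty}.Countable := by
  choose N hN hc using hA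
  obtain ⟨t, htc, ht⟩ := hK.elim_nhds_subcover (fun x => interior (N x))
    (fun x _ => interior_mem_nhds.2 (hN x))
  refine ⟨⋃ x ∈ t, interior (N x), isOpen_biUnion fun x _ => isOpen_interior, ht.2, ?_⟩
  have h1 : (⋃ x ∈ t, {i | (A i ∩ N x).Nonempty}).Countable := by
    exact Set.Countable.biUnion htc fun x _ => hc x
  refine h1.mono ?_
  rintro i ⟨y, hyA, hyN⟩
  simp only [mem_iUnion] at hyN ⊢
  obtain ⟨x, hx, hyx⟩ := hyN
  exact ⟨x, hx, y, hyA, interior_subset hyx⟩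

end Pool.Agent.U3.PL
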