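import Pool.Agent.U3.PL.Basic

/-!
# Images of paralindelöf spaces under closed mappings with Lindelöf fibres
-/

set_option autoImplicit false

open Set Topology

universe u v

namespace Pool.Agent.U3.PL

variable {X : Type u} [TopologicalSpace X] {Y : Type v} [TopologicalSpace Y]

/-- for a closed map the set of points whose fibre lies in an open set is open -/
lemma isOpen_star {f : X → Y} (hf : IsClosedMap f) {N : Set X} (hN : IsOpen N) :
    IsOpen {y | f ⁻¹' {y} ⊆ N} := by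
  have : {y | f ⁻¹' {y} ⊆ N} = (f '' Nᶜ)ᶜ := by
    ext y
    simp only [mem_compl_iff, mem_image, not_exists, not_and]
    constructor
    · intro h x hx hxy
      exact hx (h hxy)
    · intro h x hxy
      by_contra hx
      exact h x hx hxy
  rw [this]
  exact (hf _ hN.isClosed_compl).isOpen_compl

/-- closed mappings with Lindelöf fibres preserve paralindelöf spaces -/
theorem closed_lindelof (hX : Paralindelof X) {f : X → Y} (hc : Continuous f)
    (hs : Function.Surjective f) (hf : IsClosedMap f) (hL : ∀ y, IsLindelof (f ⁻¹' {y})) :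
    Paralindelof Y := by
  intro 𝒰 hUo hUc
  obtain ⟨𝒱, hVo, hVc, hVr, hVl⟩ := hX {O | ∃ U ∈ 𝒰, O = f ⁻¹' U}
    (by rintro _ ⟨U, hU, rfl⟩; exact (hUo U hU).preimage hc) (by
      refine eq_univ_of_forall fun x => ?_
      have : f x ∈ ⋃₀ 𝒰 := hUc ▸ mem_univ _
      obtain ⟨U, hU, hx⟩ := this
      exact ⟨f ⁻¹' U, ⟨U, hU, rfl⟩, hx⟩)
  have h1 : ∀ V : 𝒱, ∃ U ∈ 𝒰, (V : Set X) ⊆ f ⁻¹' U := by
    rintro ⟨V, hV⟩
    obtain ⟨_, ⟨U, hU, rfl⟩, h⟩ := hVr V hV
    exact ⟨U, hU, h⟩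
  choose U hU hVU using h1
  have hV : LC (fun V : 𝒱 => (V : Set X)) := by
    intro x
    obtain ⟨N, hN, hc⟩ := hVl x
    refine ⟨N, hN, ?_⟩
    have : {i : 𝒱 | ((i : Set X) ∩ N).Nonempty} =
        Subtype.val ⁻¹' {V | V ∈ 𝒱 ∧ (V ∩ N).Nonempty} := by
      ext i; simp
    rw [this]
    exact hc.preimage Subtype.val_injective
  -- the saturations of the members of `𝒱` form a locally countable family
  have hA : LC (fun V : 𝒱 => f ⁻¹' (f '' (V : Set X))) := by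
    intro x
    obtain ⟨N, hN, hfN, hc'⟩ := hV.nhd (hL (f x))
    refine ⟨f ⁻¹' {y | f ⁻¹' {y} ⊆ N}, ?_, ?_⟩
    · exact ((isOpen_star hf hN).preimage hc).mem_nhds hfN
    · refine hc'.mono ?_
      rintro V ⟨z, ⟨x', hx', hz⟩, hzN⟩
      have hzN' : f ⁻¹' {f z} ⊆ N := hzN
      exact ⟨x', hx', hzN' hz⟩
  obtain ⟨E, hEo, hAE, hE⟩ := expand hX hA
  refine ⟨range fun V : 𝒱 => {y | f ⁻¹' {y} ⊆ E V} ∩ U V, ?_, ?_, ?_, ?_⟩
  · rintro _ ⟨V, rfl⟩
    exact (isOpen_star hf (hEo V)).inter (hUo _ (hU V))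
  · refine eq_univ_of_forall fun y => ?_
    obtain ⟨x, rfl⟩ := hs y
    have : x ∈ ⋃₀ 𝒱 := hVc ▸ mem_univ _
    obtain ⟨V, hV', hx⟩ := this
    refine ⟨_, ⟨⟨V, hV'⟩, rfl⟩, ?_, hVU ⟨V, hV'⟩ hx⟩
    intro z hz
    exact hAE ⟨V, hV'⟩ ⟨x, hx, (mem_singleton_iff.1 hz).symm⟩
  · rintro _ ⟨V, rfl⟩
    exact ⟨U V, hU V, inter_subset_right⟩
  · intro y
    obtain ⟨N, hN, hfN, hc'⟩ := hE.nhd (hL y)
    refine ⟨{y | f ⁻¹' {y} ⊆ N}, (isOpen_star hf hN).mem_nhds hfN, ?_⟩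
    refine (hc'.image fun V => {y | f ⁻¹' {y} ⊆ E V} ∩ U V).mono ?_
    rintro _ ⟨⟨V, rfl⟩, z, ⟨hz1, -⟩, hz2⟩
    obtain ⟨x, rfl⟩ := hs z
    exact ⟨V, ⟨x, hz1 rfl, hz2 rfl⟩, rfl⟩

/-- closed subspaces of paralindelöf spaces are paralindelöf -/
theorem Paralindelof.closed (hX : Paralindelof X) {C : Set X} (hC : IsClosed C) :
    Paralindelof C := by
  intro 𝒰 hUo hUc
  obtain ⟨𝒱, hVo, hVc, hVr, hVl⟩ := hX
    {O | IsOpen O ∧ (O ⊆ Cᶜ ∨ ∃ U ∈ 𝒰, (Subtype.val ⁻¹' O : Set C) ⊆ U)} (fun U hU => hU.1) (by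
      refine eq_univ_of_forall fun x => ?_
      by_cases hx : x ∈ C
      · have : (⟨x, hx⟩ : C) ∈ ⋃₀ 𝒰 := hUc ▸ mem_univ _
        obtain ⟨U, hU, hxU⟩ := this
        obtain ⟨O, hO, rfl⟩ := isOpen_induced_iff.1 (hUo U hU)
        exact ⟨O, ⟨hO, Or.inr ⟨_, hU, Subset.rfl⟩⟩, hxU⟩
      · exact ⟨Cᶜ, ⟨hC.isOpen_compl, Or.inl Subset.rfl⟩, hx⟩)
  refine ⟨{W | ∃ V ∈ 𝒱, (∃ U ∈ 𝒰, (Subtype.val ⁻¹' V : Set C) ⊆ U) ∧ W = Subtype.val ⁻¹' V},
    ?_, ?_, ?_, ?_⟩
  · rintro _ ⟨V, hV, -, rfl⟩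
    exact (hVo V hV).preimage continuous_subtype_val
  · refine eq_univ_of_forall fun x => ?_
    have : (x : X) ∈ ⋃₀ 𝒱 := hVc ▸ mem_univ _
    obtain ⟨V, hV, hx⟩ := this
    refine ⟨Subtype.val ⁻¹' V, ⟨V, hV, ?_, rfl⟩, hx⟩
    obtain ⟨O, ⟨-, hO | ⟨U, hU, hOU⟩⟩, hVO⟩ := hVr V hV
    · exact absurd x.2 (hO (hVO hx))
    · exact ⟨U, hU, fun z hz => hOU (hVO hz)⟩
  · rintro _ ⟨V, hV, ⟨U, hU, h⟩, rfl⟩
    exact ⟨U, hU, h⟩
  · intro x
    obtain ⟨N, hN, hc⟩ := hVl x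
    refine ⟨Subtype.val ⁻¹' N, continuous_subtype_val.continuousAt.preimage_mem_nhds hN, ?_⟩
    refine (hc.image fun V => (Subtype.val ⁻¹' V : Set C)).mono ?_
    rintro _ ⟨⟨V, hV, -, rfl⟩, z, hz1, hz2⟩
    exact ⟨V, ⟨hV, z, hz1, hz2⟩, rfl⟩

/-- closed mappings of `T1` spaces whose fibres have Lindelöf boundaries preserve paralindelöf
spaces -/
theorem closed_frontier [T1Space X] (hX : Paralindelof X) {f : X → Y} (hc : Continuous f)
    (hs : Function.Surjective f) (hf : IsClosedMap f)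
    (hL : ∀ y, IsLindelof (frontier (f ⁻¹' {y}))) : Paralindelof Y := by
  classical
  choose g hg using hs
  have hT1 : ∀ y : Y, IsClosed ({y} : Set Y) := by
    intro y
    have := hf {g y} isClosed_singleton
    rwa [image_singleton, hg] at this
  -- the part of the fibre to be kept
  let K : Y → Set X := fun y => if (frontier (f ⁻¹' {y})).Nonempty then frontier (f ⁻¹' {y})
    else {g y}
  have hK1 : ∀ y, (K y).Nonempty := by
    intro y; simp only [K]; split_ifs with h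
    · exact h
    · exact singleton_nonempty _
  have hK2 : ∀ y, K y ⊆ f ⁻¹' {y} := by
    intro y; simp only [K]; split_ifs with h
    · exact ((hT1 y).preimage hc).frontier_subset
    · rintro _ rfl; exact hg y
  have hK3 : ∀ y, IsLindelof (K y) := by
    intro y; simp only [K]; split_ifs with h
    · exact hL y
    · exact isLindelof_singleton
  let C : Set X := ⋃ y, K y
  have hC : IsClosed C := by
    rw [← isOpen_compl_iff, isOpen_iff_mem_nhds]
    intro x hx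
    have hx1 : x ∉ K (f x) := fun h => hx (mem_iUnion.2 ⟨_, h⟩)
    have hx2 : x ∈ interior (f ⁻¹' {f x}) := by
      by_contra h
      apply hx1
      have hfr : x ∈ frontier (f ⁻¹' {f x}) := ⟨subset_closure rfl, h⟩
      simp only [K]
      rw [if_pos ⟨x, hfr⟩]
      exact hfr
    have hKc : IsClosed (K (f x)) := by
      simp only [K]; split_ifs
      · exact isClosed_frontier
      · exact isClosed_singleton
    filter_upwards [isOpen_interior.mem_nhds hx2, hKc.isOpen_compl.mem_nhds hx1] with z hz1 hz2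
    intro hz3
    obtain ⟨y, hy⟩ := mem_iUnion.1 hz3
    have h4 : f z = y := hK2 y hy
    have h5' : z ∈ f ⁻¹' {f x} := interior_subset hz1
    have h5 : f z = f x := h5'
    rw [← h4, h5] at hy
    exact hz2 hy
  have hXC := hX.closed hC
  refine closed_lindelof hXC (f := fun x : C => f x) (hc.comp continuous_subtype_val) ?_ ?_ ?_
  · intro y
    obtain ⟨x, hx⟩ := hK1 y
    exact ⟨⟨x, mem_iUnion.2 ⟨y, hx⟩⟩, hK2 y hx⟩
  · exact hf.comp hC.isClosedMap_subtype_val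
  · intro y
    rw [Subtype.isLindelof_iff]
    have : ((↑) '' ((fun x : C => f x) ⁻¹' {y}) : Set X) = K y := by
      ext x
      constructor
      · rintro ⟨⟨z, hz⟩, hzy, rfl⟩
        obtain ⟨y', hy'⟩ := mem_iUnion.1 hz
        have h1 : f z = y' := hK2 y' hy'
        have h2 : f z = y := hzy
        rw [← h2, h1]; exact hy'
      · intro hx
        exact ⟨⟨x, mem_iUnion.2 ⟨y, hx⟩⟩, hK2 y hx, rfl⟩
    rw [this]
    exact hK3 y

end Pool.Agent.U3.PL
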