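import Pool.Agent.U3.PL.Closed

/-!
# Normal paralindelöf spaces that are not collectionwise normal
-/

set_option autoImplicit false

open Set Topology

universe u v

namespace Pool.Agent.U3.PL

/-- A discrete family: every point has a neighbourhood that meets at most one member. -/
def DiscreteFamily {X : Type u} [TopologicalSpace X] {ι : Type v} (F : ι → Set X) : Prop :=
  ∀ x : X, ∃ N ∈ 𝓝 x, ∀ i j, (F i ∩ N).Nonempty → (F j ∩ N).Nonempty → i = j

/-- Every discrete family of closed sets can be separated by disjoint open sets. -/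
def CollectionwiseNormal (X : Type u) [TopologicalSpace X] : Prop :=
  ∀ (ι : Type u) (F : ι → Set X), (∀ i, IsClosed (F i)) → DiscreteFamily F →
    ∃ U : ι → Set X, (∀ i, IsOpen (U i)) ∧ (∀ i, F i ⊆ U i) ∧ ∀ i j, i ≠ j → Disjoint (U i) (U j)

variable {X : Type u} [TopologicalSpace X]

section count

/-- the countable case: in a normal space countably many closed sets `F i`, where `F i` and
the union of the others are disjoint closed sets, can be separated -/
lemma separate_countable [NormalSpace X] {ι : Type v} [Countable ι] {F : ι → Set X}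
    (hF : ∀ i, IsClosed (F i)) (hF' : ∀ i, IsClosed (⋃ j, ⋃ (_ : j ≠ i), F j))
    (hd : ∀ i j, i ≠ j → Disjoint (F i) (F j)) :
    ∃ U : ι → Set X, (∀ i, IsOpen (U i)) ∧ (∀ i, F i ⊆ U i) ∧
      ∀ i j, i ≠ j → Disjoint (U i) (U j) := by
  classical
  obtain ⟨e, he⟩ := exists_injective_nat ι
  have h1 : ∀ i, ∃ V : Set X, IsOpen V ∧ F i ⊆ V ∧ ∀ j, j ≠ i → Disjoint (F j) (closure V) := by
    intro i
    have h2 : F i ⊆ (⋃ j, ⋃ (_ : j ≠ i), F j)ᶜ := by
      intro x hx hx'
      simp only [mem_iUnion] at hx'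
      obtain ⟨j, hj, hxj⟩ := hx'
      exact (hd j i hj).le_bot ⟨hxj, hx⟩
    obtain ⟨V, hV, hFV, hcV⟩ := normal_exists_closure_subset (hF i) (hF' i).isOpen_compl h2
    refine ⟨V, hV, hFV, fun j hj => ?_⟩
    rw [Set.disjoint_left]
    intro x hx hx'
    exact hcV hx' (mem_iUnion.2 ⟨j, mem_iUnion.2 ⟨hj, hx⟩⟩)
  choose V hV hFV hcV using h1
  have hfin : ∀ i, {j | e j < e i}.Finite := fun i =>
    ((finite_lt_nat (e i)).preimage he.injOn)
  refine ⟨fun i => V i \ ⋃ j ∈ {j | e j < e i}, closure (V j), fun i => ?_, fun i x hx => ?_,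
    fun i j hij => ?_⟩
  · exact (hV i).sdiff ((hfin i).isClosed_biUnion fun j _ => isClosed_closure)
  · refine ⟨hFV i hx, fun hx' => ?_⟩
    simp only [mem_iUnion] at hx'
    obtain ⟨j, hj, hxj⟩ := hx'
    have hj' : e j < e i := hj
    have hne : i ≠ j := by rintro rfl; exact lt_irrefl _ hj'
    exact (hcV j i hne).le_bot ⟨hx, hxj⟩
  · rw [Set.disjoint_left]
    rintro x ⟨hx1, hx2⟩ ⟨hx3, hx4⟩
    rcases lt_trichotomy (e i) (e j) with h | h | h
    · exact hx4 (mem_iUnion.2 ⟨i, mem_iUnion.2 ⟨h, subset_closure hx1⟩⟩)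
    · exact hij (he h)
    · exact hx2 (mem_iUnion.2 ⟨j, mem_iUnion.2 ⟨h, subset_closure hx3⟩⟩)

end count

/-- **Normal paralindelöf spaces are collectionwise Hausdorff.** -/
theorem separate_points [T1Space X] [NormalSpace X] (hX : Paralindelof X) {ι : Type v}
    {d : ι → X} (hinj : Function.Injective d) (hd : ∀ s : Set ι, IsClosed (d '' s)) :
    ∃ U : ι → Set X, (∀ i, IsOpen (U i)) ∧ (∀ i, d i ∈ U i) ∧
      ∀ i j, i ≠ j → Disjoint (U i) (U j) := by
  classical
  rcases isEmpty_or_nonempty ι with hι | hι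
  · exact ⟨fun _ => ∅, fun i => isOpen_empty, fun i => isEmptyElim i, fun i => isEmptyElim i⟩
  obtain ⟨𝒱, hVo, hVc, hVr, hVl⟩ := hX (range fun i => (d '' {j | j ≠ i})ᶜ)
    (by rintro _ ⟨i, rfl⟩; exact (hd _).isOpen_compl) (by
      refine eq_univ_of_forall fun x => ?_
      by_cases hx : ∃ i, d i = x
      · obtain ⟨i, rfl⟩ := hx
        refine ⟨_, ⟨i, rfl⟩, ?_⟩
        rintro ⟨j, hj, hij⟩
        exact hj (hinj hij)
      · refine ⟨_, ⟨Classical.arbitrary ι, rfl⟩, ?_⟩
        rintro ⟨j, -, hj⟩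
        exact hx ⟨j, hj⟩)
  have h1 : ∀ i, ∃ W ∈ 𝒱, d i ∈ W := fun i => by
    have : d i ∈ ⋃₀ 𝒱 := hVc ▸ mem_univ _
    exact this
  choose W hW hdW using h1
  have hWinj : Function.Injective W := by
    intro i j hij
    obtain ⟨_, ⟨k, rfl⟩, hk⟩ := hVr (W i) (hW i)
    have h2 : i = k := by
      by_contra h
      exact hk (hdW i) ⟨i, h, rfl⟩
    have h3 : j = k := by
      by_contra h
      exact hk (hij ▸ hdW j) ⟨j, h, rfl⟩
    rw [h2, h3]
  have h2 : ∀ i, ∃ N : Set X, IsOpen N ∧ d i ∈ N ∧ {j | (W j ∩ N).Nonempty}.Countable := by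
    intro i
    obtain ⟨N, hN, hc⟩ := hVl (d i)
    refine ⟨interior N, isOpen_interior, mem_interior_iff_mem_nhds.2 hN, ?_⟩
    refine (hc.preimage hWinj).mono ?_
    intro j hj
    exact ⟨hW j, hj.mono (inter_subset_inter_right _ interior_subset)⟩
  choose N hN hdN hNc using h2
  let G : ι → Set X := fun i => N i ∩ W i
  have hGo : ∀ i, IsOpen (G i) := fun i => (hN i).inter (hVo _ (hW i))
  let R : ι → ι → Prop := fun i j => (G i ∩ G j).Nonempty
  have hRc : ∀ i, {j | R i j}.Countable := by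
    intro i
    refine (hNc i).mono ?_
    rintro j ⟨x, hx1, hx2⟩
    exact ⟨x, hx2.2, hx1.1⟩
  have hRs : ∀ i j, R i j → R j i := by
    rintro i j ⟨x, hx1, hx2⟩
    exact ⟨x, hx2, hx1⟩
  -- the components are countable
  have hcomp : ∀ i, {j | Relation.ReflTransGen R i j}.Countable := by
    intro i
    let S : ℕ → Set ι := fun n => Nat.rec {i} (fun _ T => ⋃ j ∈ T, {k | R j k}) n
    have hS : ∀ n, (S n).Countable := by
      intro n
      induction n with
      | zero => exact countable_singleton i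
      | succ n ih => exact ih.biUnion fun j _ => hRc j
    refine (countable_iUnion hS).mono ?_
    intro j hj
    have hj' : Relation.ReflTransGen R i j := hj
    clear hj
    induction hj' with
    | refl => exact mem_iUnion.2 ⟨0, rfl⟩
    | tail _ h ih =>
      obtain ⟨n, hn⟩ := mem_iUnion.1 ih
      exact mem_iUnion.2 ⟨n + 1, mem_iUnion.2 ⟨_, mem_iUnion.2 ⟨hn, h⟩⟩⟩
  let st : Setoid ι := ⟨Relation.ReflTransGen R, fun _ => .refl,
    fun {a b} h => by
      induction h with
      | refl => exact .refl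
      | tail _ h ih => exact .head (hRs _ _ h) ih,
    fun h1 h2 => h1.trans h2⟩
  -- separate the members of each class
  have h3 : ∀ c : Quotient st, ∃ U : {i : ι // (Quotient.mk st i) = c} → Set X,
      (∀ i, IsOpen (U i)) ∧ (∀ i, {d i.1} ⊆ U i) ∧ ∀ i j, i ≠ j → Disjoint (U i) (U j) := by
    intro c
    have hcount : Countable {i : ι // (Quotient.mk st i) = c} := by
      induction c using Quotient.ind with
      | _ i0 =>
        refine ((hcomp i0).mono ?_).to_subtype
        intro i hi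
        exact Quotient.exact (s := st) (show Quotient.mk st i0 = Quotient.mk st i from hi.symm)
    refine separate_countable (fun i => isClosed_singleton) (fun i => ?_) (fun i j hij => ?_)
    · have : (⋃ j : {i : ι // (Quotient.mk st i) = c}, ⋃ (_ : j ≠ i), ({d j.1} : Set X)) =
          d '' {j | ∃ h : Quotient.mk st j = c, (⟨j, h⟩ : {i : ι // (Quotient.mk st i) = c}) ≠ i} := by
        ext x
        simp only [mem_iUnion, mem_singleton_iff, mem_image]
        constructor
        · rintro ⟨j, hj, rfl⟩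
          exact ⟨j.1, ⟨j.2, hj⟩, rfl⟩
        · rintro ⟨j, ⟨h, hj⟩, rfl⟩
          exact ⟨⟨j, h⟩, hj, rfl⟩
      rw [this]
      exact hd _
    · rw [Set.disjoint_singleton]
      intro h
      exact hij (Subtype.ext (hinj h))
  choose U hUo hdU hUd using h3
  refine ⟨fun i => G i ∩ U (Quotient.mk st i) ⟨i, rfl⟩, fun i => (hGo i).inter (hUo _ _),
    fun i => ⟨⟨hdN i, hdW i⟩, hdU _ ⟨i, rfl⟩ rfl⟩, fun i j hij => ?_⟩
  by_cases h : Quotient.mk st i = Quotient.mk st j
  · have h4 : ∀ (c : Quotient st) (hi : Quotient.mk st i = c) (hj : Quotient.mk st j = c),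
        Disjoint (U c ⟨i, hi⟩) (U c ⟨j, hj⟩) := fun c hi hj =>
      hUd c _ _ fun h => hij (congrArg Subtype.val h)
    have h5 : ∀ (c : Quotient st) (hc : Quotient.mk st j = c),
        U (Quotient.mk st j) ⟨j, rfl⟩ = U c ⟨j, hc⟩ := by
      rintro c rfl; rfl
    have h6 := h4 (Quotient.mk st i) rfl h.symm
    rw [← h5 _ h.symm] at h6
    exact h6.mono inter_subset_right inter_subset_right
  · rw [Set.disjoint_left]
    rintro x ⟨hx1, -⟩ ⟨hx2, -⟩
    apply h
    exact Quotient.sound (s := st) (Relation.ReflTransGen.single ⟨x, hx1, hx2⟩)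

end Pool.Agent.U3.PL
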