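import Pool.Agent.U3.PL.Normal

/-!
# Collapsing the members of a discrete family of closed sets
-/

set_option autoImplicit false

open Set Topology

universe u v

namespace Pool.Agent.U3.PL

variable {X : Type u} [TopologicalSpace X]

lemma DiscreteFamily.disjoint {ι : Type v} {F : ι → Set X} (hF : DiscreteFamily F) {i j : ι}
    {x : X} (hi : x ∈ F i) (hj : x ∈ F j) : i = j := by
  obtain ⟨N, hN, h⟩ := hF x
  exact h i j ⟨x, hi, mem_of_mem_nhds hN⟩ ⟨x, hj, mem_of_mem_nhds hN⟩

lemma DiscreteFamily.locallyFinite {ι : Type v} {F : ι → Set X} (hF : DiscreteFamily F) :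
    LocallyFinite F := by
  intro x
  obtain ⟨N, hN, h⟩ := hF x
  exact ⟨N, hN, Set.Subsingleton.finite fun i hi j hj => h i j hi hj⟩

/-- closed images of normal spaces are normal -/
lemma normal_image {Y : Type v} [TopologicalSpace Y] [NormalSpace X] {f : X → Y}
    (hc : Continuous f) (hs : Function.Surjective f) (hf : IsClosedMap f) : NormalSpace Y := by
  refine ⟨fun s t hsc htc hst => ?_⟩
  obtain ⟨U, V, hU, hV, hsU, htV, hUV⟩ := normal_separation (hsc.preimage hc) (htc.preimage hc)
    (hst.preimage f)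
  refine ⟨{y | f ⁻¹' {y} ⊆ U}, {y | f ⁻¹' {y} ⊆ V}, isOpen_star hf hU, isOpen_star hf hV,
    ?_, ?_, ?_⟩
  · intro y hy x hx
    exact hsU (show f x ∈ s from (mem_singleton_iff.1 hx).symm ▸ hy)
  · intro y hy x hx
    exact htV (show f x ∈ t from (mem_singleton_iff.1 hx).symm ▸ hy)
  · rw [Set.disjoint_left]
    intro y hy1 hy2
    obtain ⟨x, rfl⟩ := hs y
    exact hUV.le_bot ⟨hy1 rfl, hy2 rfl⟩

/-- the relation that identifies the points of each member of the family -/
def glue {ι : Type v} {F : ι → Set X} (hF : DiscreteFamily F) : Setoid X where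
  r x y := x = y ∨ ∃ i, x ∈ F i ∧ y ∈ F i
  iseqv := ⟨fun _ => Or.inl rfl, fun {x y} h => by
    rcases h with rfl | ⟨i, h1, h2⟩
    · exact Or.inl rfl
    · exact Or.inr ⟨i, h2, h1⟩, fun {x y z} h1 h2 => by
    rcases h1 with rfl | ⟨i, h1, h1'⟩
    · exact h2
    · rcases h2 with rfl | ⟨j, h2, h2'⟩
      · exact Or.inr ⟨i, h1, h1'⟩
      · obtain rfl := hF.disjoint h1' h2
        exact Or.inr ⟨i, h1, h2'⟩⟩

lemma glue_closed {ι : Type v} {F : ι → Set X} (hF : DiscreteFamily F) (hc : ∀ i, IsClosed (F i)) :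
    IsClosedMap (Quotient.mk (glue hF)) := by
  intro K hK
  have hq : IsQuotientMap (Quotient.mk (glue hF)) := isQuotientMap_quot_mk
  rw [← hq.isClosed_preimage]
  have : Quotient.mk (glue hF) ⁻¹' (Quotient.mk (glue hF) '' K) =
      K ∪ ⋃ i : {i // (F i ∩ K).Nonempty}, F i.1 := by
    ext x
    constructor
    · rintro ⟨y, hy, hxy⟩
      have h : y = x ∨ ∃ i, y ∈ F i ∧ x ∈ F i := Quotient.exact (s := glue hF) hxy
      rcases h with rfl | ⟨i, h1, h2⟩
      · exact Or.inl hy
      · exact Or.inr (mem_iUnion.2 ⟨⟨i, y, h1, hy⟩, h2⟩)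
    · rintro (hx | hx)
      · exact ⟨x, hx, rfl⟩
      · obtain ⟨⟨i, y, hy1, hy2⟩, hx⟩ := mem_iUnion.1 hx
        exact ⟨y, hy2, Quotient.sound (s := glue hF) (Or.inr ⟨i, hy1, hx⟩)⟩
  rw [this]
  exact hK.union ((hF.locallyFinite.comp_injective Subtype.val_injective).isClosed_iUnion
    fun i => hc _)

/-- **A normal paralindelöf space that is not collectionwise normal has a closed image that is
normal and not paralindelöf.** -/
theorem exists_closed_image [T1Space X] [NormalSpace X] (hcwn : ¬ CollectionwiseNormal X) :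
    ∃ (Y : Type u) (_ : TopologicalSpace Y) (_ : T4Space Y) (f : X → Y), Continuous f ∧
      Function.Surjective f ∧ IsClosedMap f ∧ ¬ Paralindelof Y := by
  classical
  simp only [CollectionwiseNormal, not_forall] at hcwn
  obtain ⟨ι, F, hc, hF, hns⟩ := hcwn
  have hcont : Continuous (Quotient.mk (glue hF)) := continuous_quot_mk
  have hsurj : Function.Surjective (Quotient.mk (glue hF)) := Quotient.mk_surjective
  have hcl := glue_closed hF hc
  have hT1 : T1Space (Quotient (glue hF)) := by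
    refine ⟨fun y => ?_⟩
    obtain ⟨x, rfl⟩ := hsurj y
    have := hcl {x} isClosed_singleton
    rwa [image_singleton] at this
  have hN : NormalSpace (Quotient (glue hF)) := normal_image hcont hsurj hcl
  refine ⟨Quotient (glue hF), inferInstance, ⟨⟩, Quotient.mk (glue hF), hcont, hsurj, hcl,
    fun hP => hns ?_⟩
  -- the points of the image
  let κ := {i // (F i).Nonempty}
  let p : κ → X := fun i => i.2.some
  have hp : ∀ i : κ, p i ∈ F i.1 := fun i => i.2.some_mem
  have hinj : Function.Injective fun i : κ => Quotient.mk (glue hF) (p i) := by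
    intro i j hij
    have h : p i = p j ∨ ∃ k, p i ∈ F k ∧ p j ∈ F k := Quotient.exact (s := glue hF) hij
    rcases h with h | ⟨k, h1, h2⟩
    · exact Subtype.ext (hF.disjoint (hp i) (h ▸ hp j))
    · exact Subtype.ext ((hF.disjoint (hp i) h1).trans (hF.disjoint (hp j) h2).symm)
  have hdc : ∀ s : Set κ, IsClosed ((fun i : κ => Quotient.mk (glue hF) (p i)) '' s) := by
    intro s
    have h1 : (fun i : κ => Quotient.mk (glue hF) (p i)) '' s =
        Quotient.mk (glue hF) '' (⋃ i : s, F i.1.1) := by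
      ext y
      constructor
      · rintro ⟨i, hi, rfl⟩
        exact ⟨p i, mem_iUnion.2 ⟨⟨i, hi⟩, hp i⟩, rfl⟩
      · rintro ⟨x, hx, rfl⟩
        obtain ⟨⟨i, hi⟩, hx⟩ := mem_iUnion.1 hx
        exact ⟨i, hi, Quotient.sound (s := glue hF) (Or.inr ⟨i.1, hp i, hx⟩)⟩
    rw [h1]
    refine hcl _ ?_
    have h2 : LocallyFinite fun i : s => F i.1.1 :=
      hF.locallyFinite.comp_injective (g := fun i : s => i.1.1)
        (Subtype.val_injective.comp Subtype.val_injective)
    exact h2.isClosed_iUnion fun i => hc _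
  obtain ⟨U, hU, hdU, hUd⟩ := separate_points hP hinj hdc
  refine ⟨fun i => if h : (F i).Nonempty then Quotient.mk (glue hF) ⁻¹' (U ⟨i, h⟩) else ∅,
    fun i => ?_, fun i x hx => ?_, fun i j hij => ?_⟩
  · dsimp only
    split_ifs with h
    · exact (hU _).preimage hcont
    · exact isOpen_empty
  · have h : (F i).Nonempty := ⟨x, hx⟩
    dsimp only
    rw [dif_pos h]
    have h1 : Quotient.mk (glue hF) x = Quotient.mk (glue hF) (p ⟨i, h⟩) :=
      Quotient.sound (s := glue hF) (Or.inr ⟨i, hx, hp ⟨i, h⟩⟩)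
    show Quotient.mk (glue hF) x ∈ U ⟨i, h⟩
    rw [h1]
    exact hdU ⟨i, h⟩
  · dsimp only
    split_ifs with h1 h2
    · exact (hUd ⟨i, h1⟩ ⟨j, h2⟩ fun h => hij (congrArg Subtype.val h)).preimage _
    · exact disjoint_bot_right
    · exact disjoint_bot_left
    · exact disjoint_bot_left

end Pool.Agent.U3.PL
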